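import Pool.Agent.Helper85_CYD.StG

/-! # CYD: `g(x)` is a unit where `n` is a unit (module AWY) -/

set_option autoImplicit false

open Polynomial IsLocalRing

namespace Pool.Agent.CYD

theorem awy_unit (hDvd : DvdStmt) {n : ℕ} {g h : ℤ[X]} (F : Fg n g h) {K : Type} [Field K]
    [CharZero K] {A : ValuationSubring K} {x : A} (hn : IsUnit (n : A))
    (hx : IsPrimitiveRoot x n) : IsUnit (aeval x g) := by
  obtain ⟨v, hv⟩ := hDvd n g h F
  have h0 : aeval x (cyclotomic n ℤ) = 0 := by
    have h1 : IsRoot (cyclotomic n A) x := hx.isRoot_cyclotomic (by have := F.hn; omega)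
    rw [aeval_def, ← eval_map, map_cyclotomic]
    exact h1
  obtain ⟨w, hw⟩ := hv
  have h2 := congrArg (aeval x) hw
  rw [map_mul, h0, zero_mul, map_sub, map_mul, map_mul, sub_eq_zero] at h2
  have h3 : aeval x (C (n : ℤ)) = (n : A) := by simp
  rw [h3] at h2
  rw [← h2, mul_assoc] at hn
  exact isUnit_of_mul_isUnit_left hn

theorem awy (hDvd : DvdStmt) : AwyStmt := by
  intro n g h F K _ _ A x hn hx
  refine ⟨awy_unit hDvd F hn hx, ?_⟩
  have hn3 := F.hn
  have hxy : x * x ^ (n - 1) = 1 := by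
    rw [← pow_succ', Nat.sub_add_cancel (by omega), hx.pow_eq_one]
  have hy : IsPrimitiveRoot (x ^ (n - 1)) n := by
    apply hx.pow_of_coprime
    have : Nat.Coprime n (n - 1) := by
      have h1 : n = (n - 1) + 1 := by omega
      conv_lhs => rw [h1]
      simp
    exact this.symm
  let _ : Invertible (x ^ (n - 1)) := ⟨x, hxy, by rw [mul_comm]; exact hxy⟩
  have h1 := eval₂_reverse_mul_pow (algebraMap ℤ A) (x ^ (n - 1)) g
  have h2 := awy_unit hDvd F hn hy
  rw [aeval_def, ← h1] at h2
  exact isUnit_of_mul_isUnit_left h2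

end Pool.Agent.CYD
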