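import Pool.Agent.Helper85_CYD.StG
import Pool.Agent.Helper85_CYD.St2

/-! # CYD: the upper bound for the norms (module NGH) -/

set_option autoImplicit false

open Polynomial IsLocalRing

namespace Pool.Agent.CYD

theorem ngh (hDvd : DvdStmt) : NghStmt := by
  intro n g h F K _ _ _ z hz
  obtain ⟨v, hv⟩ := hDvd n g h F
  have hn3 := F.hn
  have hnpos : 0 < n := by omega
  have : NeZero n := ⟨by omega⟩
  have h0 : aeval z (cyclotomic n ℤ) = 0 := by
    have h1 : IsRoot (cyclotomic n K) z := hz.isRoot_cyclotomic hnpos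
    rw [aeval_def, ← eval_map, map_cyclotomic]
    exact h1
  obtain ⟨w, hw⟩ := hv
  have h2 := congrArg (aeval z) hw
  rw [map_mul, h0, zero_mul, map_sub, map_mul, map_mul, sub_eq_zero] at h2
  have h3 : aeval z (C (n : ℤ)) = algebraMap ℚ K (n : ℚ) := by simp
  rw [h3] at h2
  have h4 := congrArg (Algebra.norm ℚ) h2
  rw [map_mul, map_mul, Algebra.norm_algebraMap] at h4
  have h5 : Module.finrank ℚ K = n.totient :=
    IsCyclotomicExtension.finrank K (cyclotomic.irreducible_rat hnpos)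
  rw [h5] at h4
  have hint : IsIntegral ℤ (aeval z v) := by
    have hzi : IsIntegral ℤ z := hz.isIntegral hnpos
    have h7 : aeval z v = ((aeval (⟨z, hzi⟩ : integralClosure ℤ K) v : integralClosure ℤ K) : K) :=
      Subalgebra.aeval_coe (integralClosure ℤ K) (⟨z, hzi⟩ : integralClosure ℤ K) v
    rw [h7]
    exact (aeval (⟨z, hzi⟩ : integralClosure ℤ K) v : integralClosure ℤ K).2
  have h6 : IsIntegral ℤ (Algebra.norm ℚ (aeval z v)) := Algebra.isIntegral_norm ℚ hint
  obtain ⟨k, hk⟩ := IsIntegrallyClosed.isIntegral_iff.mp h6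
  have hk' : (k : ℚ) = Algebra.norm ℚ (aeval z v) := by simpa using hk
  rw [← hk'] at h4
  have hk0 : k ≠ 0 := by
    rintro rfl
    have : ((n : ℚ) ^ n.totient) ≠ 0 := pow_ne_zero _ (by exact_mod_cast (by omega : n ≠ 0))
    apply this
    rw [← h4]; simp
  have hk1 : (1 : ℚ) ≤ |(k : ℚ)| := by
    have : (1 : ℤ) ≤ |k| := Int.one_le_abs hk0
    exact_mod_cast this
  calc |Algebra.norm ℚ (aeval z g)| * |Algebra.norm ℚ (aeval z h)|
      ≤ |Algebra.norm ℚ (aeval z g)| * |Algebra.norm ℚ (aeval z h)| * |(k : ℚ)| :=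
        le_mul_of_one_le_right (by positivity) hk1
    _ = (n : ℚ) ^ n.totient := by
        rw [← abs_mul, ← abs_mul, h4, abs_of_nonneg (by positivity)]

end Pool.Agent.CYD
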